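import Pool.Agent.Helper30.SY.St

/-!
# Project SY, module CO2: Bernstein tail for the number of edges
-/

set_option autoImplicit false

namespace Pool.Agent.Helper70.SY

open Finset Pool.Agent.Helper30.SY Pool.Agent.Helper93.IA

private lemma iv01 (z : ℤ) (u : Sta) (τ : Fin 3) : 0 ≤ iv z u τ ∧ iv z u τ ≤ 1 := by
  unfold iv
  split_ifs <;> constructor <;> norm_num

private lemma upd {n : ℕ} (s : Fin n → Fin n → ℤ) (σ : Fin n × Fin n → Sta)
    (p : Fin n × Fin n) (u u' : Sta) (τ : Fin 3) (a b : Fin n) :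
    |ms s (Function.update σ p u) τ a b - ms s (Function.update σ p u') τ a b| ≤
      (if a = p.1 ∧ b = p.2 then 1 else 0) + (if a = p.2 ∧ b = p.1 then 1 else 0) := by
  have h0 : (0 : ℝ) ≤ (if a = p.1 ∧ b = p.2 then 1 else 0) + (if a = p.2 ∧ b = p.1 then 1 else 0) := by
    split_ifs <;> norm_num
  unfold ms
  by_cases hab : a = b
  · rw [if_pos hab, if_pos hab, sub_self, abs_zero]
    exact h0
  · rw [if_neg hab, if_neg hab]
    by_cases hp : co a b = p
    · have h1 := iv01 (s a b) (Function.update σ p u (co a b)) τ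
      have h2 := iv01 (s a b) (Function.update σ p u' (co a b)) τ
      have h3 : (1 : ℝ) ≤ (if a = p.1 ∧ b = p.2 then 1 else 0) +
          (if a = p.2 ∧ b = p.1 then 1 else 0) := by
        unfold co at hp
        by_cases hlt : a < b
        · rw [if_pos hlt] at hp
          subst hp
          rw [if_pos ⟨rfl, rfl⟩]
          split_ifs <;> norm_num
        · rw [if_neg hlt] at hp
          subst hp
          rw [if_pos (show a = (b, a).2 ∧ b = (b, a).1 from ⟨rfl, rfl⟩)]
          split_ifs <;> norm_num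
      refine le_trans ?_ h3
      rw [abs_le]
      constructor <;> linarith
    · rw [Function.update_of_ne hp, Function.update_of_ne hp, sub_self, abs_zero]
      exact h0

private lemma cnt {n : ℕ} (x y : Fin n) :
    ∑ a : Fin n, ∑ b : Fin n, (if a = x ∧ b = y then (1 : ℝ) else 0) = 1 := by
  rw [Finset.sum_eq_single x, Finset.sum_eq_single y]
  · simp
  · intro b _ hb
    rw [if_neg (fun h => hb h.2)]
  · intro h
    exact absurd (mem_univ _) h
  · intro a _ ha
    refine Finset.sum_eq_zero fun b _ => ?_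
    rw [if_neg (fun h => ha h.1)]
  · intro h
    exact absurd (mem_univ _) h

private lemma osc {n : ℕ} (s : Fin n → Fin n → ℤ) (σ : Fin n × Fin n → Sta)
    (p : Fin n × Fin n) (u u' : Sta) (τ : Fin 3) :
    |(∑ a, ∑ b, ms s (Function.update σ p u) τ a b) -
      ∑ a, ∑ b, ms s (Function.update σ p u') τ a b| ≤ 2 := by
  have h1 : (∑ a, ∑ b, ms s (Function.update σ p u) τ a b) -
      ∑ a, ∑ b, ms s (Function.update σ p u') τ a b =
      ∑ a, ∑ b, (ms s (Function.update σ p u) τ a b - ms s (Function.update σ p u') τ a b) := by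
    rw [← Finset.sum_sub_distrib]
    exact Finset.sum_congr rfl fun a _ => (Finset.sum_sub_distrib _ _).symm
  rw [h1]
  refine (Finset.abs_sum_le_sum_abs _ _).trans ?_
  refine (Finset.sum_le_sum fun a _ => Finset.abs_sum_le_sum_abs _ _).trans ?_
  refine (Finset.sum_le_sum fun a _ => Finset.sum_le_sum fun b _ => upd s σ p u u' τ a b).trans ?_
  have h2 : ∑ a : Fin n, ∑ b : Fin n, ((if a = p.1 ∧ b = p.2 then (1 : ℝ) else 0) +
      (if a = p.2 ∧ b = p.1 then 1 else 0)) = 1 + 1 := by
    have h3 := cnt p.1 p.2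
    have h4 := cnt p.2 p.1
    calc ∑ a : Fin n, ∑ b : Fin n, ((if a = p.1 ∧ b = p.2 then (1 : ℝ) else 0) +
        (if a = p.2 ∧ b = p.1 then 1 else 0))
        = ∑ a : Fin n, (∑ b : Fin n, (if a = p.1 ∧ b = p.2 then (1 : ℝ) else 0) +
          ∑ b : Fin n, (if a = p.2 ∧ b = p.1 then (1 : ℝ) else 0)) :=
          Finset.sum_congr rfl fun a _ => Finset.sum_add_distrib
      _ = _ := by rw [Finset.sum_add_distrib, h3, h4]
  rw [h2]
  norm_num

theorem hCO2 : StCO2 := by
  intro hB η hη hη1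
  refine ⟨⌈8 / η⌉₊, fun n hn s w τ hw0 hw1 => ?_⟩
  have hn' : 8 ≤ η * n := by
    have h1 : (8 / η : ℝ) ≤ n := (Nat.le_ceil _).trans (by exact_mod_cast hn)
    rwa [div_le_iff₀ hη, mul_comm] at h1
  have hmain := hB (Fin n × Fin n) (fun _ => Sta) w (fun σ => ∑ a, ∑ b, ms s σ τ a b) 2
    (η * (n : ℝ) ^ 2) (η / 8) (fun _ => 4) hw0 hw1 (fun p σ u u' => osc s σ p u u' τ)
    (fun p σ => by
      refine ⟨∑ a, ∑ b, ms s (Function.update σ p (0, fun _ => false)) τ a b, ?_⟩
      have h1 : ∀ u : Sta, w p u * ((∑ a, ∑ b, ms s (Function.update σ p u) τ a b) -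
          ∑ a, ∑ b, ms s (Function.update σ p (0, fun _ => false)) τ a b) ^ 2 ≤ w p u * 4 := by
        intro u
        refine mul_le_mul_of_nonneg_left ?_ (hw0 p u)
        have h2 := osc s σ p u (0, fun _ => false) τ
        have h3 := abs_nonneg ((∑ a, ∑ b, ms s (Function.update σ p u) τ a b) -
          ∑ a, ∑ b, ms s (Function.update σ p (0, fun _ => false)) τ a b)
        rw [← sq_abs]
        nlinarith
      refine (Finset.sum_le_sum fun u _ => h1 u).trans ?_
      rw [← Finset.sum_mul, hw1 p, one_mul])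
    (by positivity) (by linarith)
  refine hmain.trans ?_
  have h1 : ∑ _i : Fin n × Fin n, (4 : ℝ) = 4 * (n : ℝ) ^ 2 := by
    rw [Finset.sum_const, Finset.card_univ, Fintype.card_prod, Fintype.card_fin, nsmul_eq_mul]
    push_cast
    ring
  rw [h1]
  have h2 : -(η / 8) * (η * (n : ℝ) ^ 2) + (η / 8) ^ 2 * (4 * (n : ℝ) ^ 2) =
      -((η * n) ^ 2 / 16) := by ring
  rw [h2]
  have h3 : (4 : ℝ) ≤ (η * n) ^ 2 / 16 := by nlinarith
  have h4 : Real.exp (-((η * n) ^ 2 / 16)) ≤ Real.exp (-4) := Real.exp_le_exp.2 (by linarith)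
  refine h4.trans ?_
  have h5 := Real.add_one_le_exp (4 : ℝ)
  rw [Real.exp_neg]
  have h6 : (4 : ℝ) ≤ Real.exp 4 := by linarith
  rw [one_div]
  exact inv_anti₀ (by norm_num) h6

end Pool.Agent.Helper70.SY
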